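import Pool.Agent.X268.PC.Stm

/-!
# Linear algebra: relations with `p`-adic coefficients along a line over a commutative field
-/

namespace Pool.Agent.X268.PC

open Polynomial

variable {p : ℕ} [Fact p.Prime] {n : ℕ}

/-- Base change of a rational matrix to `ℚ_p`. -/
noncomputable abbrev bc (p : ℕ) [Fact p.Prime] {n : ℕ} (A : Matrix (Fin n) (Fin n) ℚ) :
    Matrix (Fin n) (Fin n) ℚ_[p] := A.map (algebraMap ℚ ℚ_[p])

/-- Linear independence over `ℚ` of rational matrices persists over `ℚ_p`. -/
theorem indep_bc {m : ℕ} (v : Fin m → Matrix (Fin n) (Fin n) ℚ) (hv : LinearIndependent ℚ v)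
    (a : Fin m → ℚ_[p]) (h : ∑ i, a i • bc p (v i) = 0) : a = 0 := by
  classical
  have hinj : LinearMap.ker (Fintype.linearCombination ℚ v) = ⊥ := by
    rw [LinearMap.ker_eq_bot]
    exact linearIndependent_iff_injective_fintypeLinearCombination.mp hv
  obtain ⟨g, hg⟩ := LinearMap.exists_leftInverse_of_injective _ hinj
  have hgv : ∀ l k, g (v l) k = if l = k then 1 else 0 := by
    intro l k
    have h1 : (Fintype.linearCombination ℚ v) (Pi.single l 1) = v l := by
      rw [Fintype.linearCombination_apply_single, one_smul]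
    have h2 := congrArg (fun f => f (Pi.single l (1 : ℚ))) hg
    simp only [LinearMap.comp_apply, LinearMap.id_apply, h1] at h2
    rw [h2]
    simp only [Pi.single_apply]
    congr 1
    exact propext ⟨fun h => h.symm, fun h => h.symm⟩
  have hexp : ∀ (A : Matrix (Fin n) (Fin n) ℚ) (k : Fin m),
      g A k = ∑ i, ∑ j, A i j * g (Matrix.single i j 1) k := by
    intro A k
    conv_lhs => rw [Matrix.matrix_eq_sum_single A]
    rw [map_sum, Finset.sum_apply]
    refine Finset.sum_congr rfl fun i _ => ?_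
    rw [map_sum, Finset.sum_apply]
    refine Finset.sum_congr rfl fun j _ => ?_
    have : Matrix.single i j (A i j) = A i j • Matrix.single i j (1 : ℚ) := by
      rw [Matrix.smul_single, smul_eq_mul, mul_one]
    rw [this, map_smul]
    rfl
  funext k
  have hent : ∀ i j, ∑ l, a l * (algebraMap ℚ ℚ_[p]) (v l i j) = 0 := by
    intro i j
    have := congrFun (congrFun h i) j
    simpa [Matrix.sum_apply, Matrix.smul_apply] using this
  have hkey : ∑ l, a l * (algebraMap ℚ ℚ_[p]) (g (v l) k) = 0 := by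
    calc ∑ l, a l * (algebraMap ℚ ℚ_[p]) (g (v l) k)
        = ∑ l, ∑ i, ∑ j, a l * (algebraMap ℚ ℚ_[p]) (v l i j) *
            (algebraMap ℚ ℚ_[p]) (g (Matrix.single i j 1) k) := by
          refine Finset.sum_congr rfl fun l _ => ?_
          rw [hexp (v l) k, map_sum, Finset.mul_sum]
          refine Finset.sum_congr rfl fun i _ => ?_
          rw [map_sum, Finset.mul_sum]
          refine Finset.sum_congr rfl fun j _ => ?_
          rw [map_mul, mul_assoc]
      _ = ∑ i, ∑ j, (∑ l, a l * (algebraMap ℚ ℚ_[p]) (v l i j)) *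
            (algebraMap ℚ ℚ_[p]) (g (Matrix.single i j 1) k) := by
          rw [Finset.sum_comm]
          refine Finset.sum_congr rfl fun i _ => ?_
          rw [Finset.sum_comm]
          refine Finset.sum_congr rfl fun j _ => ?_
          rw [Finset.sum_mul]
      _ = 0 := by
          refine Finset.sum_eq_zero fun i _ => Finset.sum_eq_zero fun j _ => ?_
          rw [hent, zero_mul]
  simpa [hgv] using hkey

/-- Evaluating a rational polynomial at a rational matrix commutes with base change. -/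
theorem bc_aeval (Θ : Matrix (Fin n) (Fin n) ℚ) (g : ℚ[X]) :
    bc p (aeval Θ g) = aeval (bc p Θ) (g.map (algebraMap ℚ ℚ_[p])) := by
  have h1 : bc p (aeval Θ g) = (algebraMap ℚ ℚ_[p]).mapMatrix (aeval Θ g) := rfl
  rw [h1, aeval_def, hom_eval₂, aeval_def, eval₂_map]
  have h2 : ((algebraMap ℚ ℚ_[p]).mapMatrix.comp (algebraMap ℚ (Matrix (Fin n) (Fin n) ℚ))) =
      ((algebraMap ℚ_[p] (Matrix (Fin n) (Fin n) ℚ_[p])).comp (algebraMap ℚ ℚ_[p])) :=
    Subsingleton.elim _ _
  rw [h2]
  rfl

/-- If a vector satisfies no linear relation with algebraic coefficients then a polynomial in a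
rational matrix with `p`-adic coefficients kills it only if it is zero. -/
theorem aeval_eq_zero (Θ : Matrix (Fin n) (Fin n) ℚ) (w : Fin n → ℚ_[p])
    (hw : ∀ c : Fin n → ℚ_[p], (∀ j, IsAlgebraic ℚ (c j)) → ∑ j, c j * w j = 0 → c = 0)
    (g : ℚ_[p][X]) (hg : (aeval (bc p Θ) g).mulVec w = 0) : aeval (bc p Θ) g = 0 := by
  classical
  set f : ℚ[X] := minpoly ℚ Θ with hf
  have hfm : f.Monic := minpoly.monic (Algebra.IsIntegral.isIntegral Θ)
  set fp : ℚ_[p][X] := f.map (algebraMap ℚ ℚ_[p]) with hfp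
  have hfpm : fp.Monic := hfm.map _
  have hfp0 : aeval (bc p Θ) fp = 0 := by
    rw [hfp, ← bc_aeval, hf, minpoly.aeval]
    ext i j
    simp
  set h : ℚ_[p][X] := EuclideanDomain.gcd g fp with hh
  have hh0 : h ≠ 0 := by
    intro h0
    have := (EuclideanDomain.gcd_eq_zero_iff.mp h0).2
    exact hfpm.ne_zero this
  set h' : ℚ_[p][X] := h * C h.leadingCoeff⁻¹ with hh'
  have hh'm : h'.Monic := monic_mul_leadingCoeff_inv hh0
  have hdvdg : h' ∣ g := by
    have h1 : h ∣ g := EuclideanDomain.gcd_dvd_left g fp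
    obtain ⟨q, hq⟩ := h1
    refine ⟨C h.leadingCoeff * q, ?_⟩
    have h2 : (C h.leadingCoeff⁻¹ * C h.leadingCoeff : ℚ_[p][X]) = 1 := by
      rw [← C_mul, inv_mul_cancel₀ (leadingCoeff_ne_zero.mpr hh0), C_1]
    calc g = h * q := hq
      _ = h * (C h.leadingCoeff⁻¹ * C h.leadingCoeff) * q := by rw [h2, mul_one]
      _ = h' * (C h.leadingCoeff * q) := by rw [hh']; ring
  have hdvdf : h' ∣ fp := by
    have h1 : h ∣ fp := EuclideanDomain.gcd_dvd_right g fp
    obtain ⟨q, hq⟩ := h1
    refine ⟨C h.leadingCoeff * q, ?_⟩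
    have h2 : (C h.leadingCoeff⁻¹ * C h.leadingCoeff : ℚ_[p][X]) = 1 := by
      rw [← C_mul, inv_mul_cancel₀ (leadingCoeff_ne_zero.mpr hh0), C_1]
    calc fp = h * q := hq
      _ = h * (C h.leadingCoeff⁻¹ * C h.leadingCoeff) * q := by rw [h2, mul_one]
      _ = h' * (C h.leadingCoeff * q) := by rw [hh']; ring
  -- `h'` kills `w`
  have hkill : (aeval (bc p Θ) h').mulVec w = 0 := by
    have hbez : h = g * EuclideanDomain.gcdA g fp + fp * EuclideanDomain.gcdB g fp :=
      EuclideanDomain.gcd_eq_gcd_ab g fp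
    have h1 : h' = (EuclideanDomain.gcdA g fp * C h.leadingCoeff⁻¹) * g +
        (EuclideanDomain.gcdB g fp * C h.leadingCoeff⁻¹) * fp := by
      rw [hh']
      calc h * C h.leadingCoeff⁻¹ = (g * EuclideanDomain.gcdA g fp +
            fp * EuclideanDomain.gcdB g fp) * C h.leadingCoeff⁻¹ := by rw [← hbez]
        _ = _ := by ring
    rw [h1, map_add, map_mul, map_mul _ _ fp, hfp0, mul_zero, add_zero, ← Matrix.mulVec_mulVec,
      hg, Matrix.mulVec_zero]
  -- the coefficients of `h'` are algebraic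
  have halg : ∀ i, IsAlgebraic ℚ (h'.coeff i) := fun i =>
    (isIntegral_coeff_of_dvd f h' hfm hh'm hdvdf i).isAlgebraic
  have hent : ∀ i j, IsAlgebraic ℚ ((aeval (bc p Θ) h') i j) := by
    intro i j
    rw [aeval_eq_sum_range, Matrix.sum_apply]
    refine Finset.sum_induction _ (fun z => IsAlgebraic ℚ z) (fun a b ha hb => ha.add hb)
      isAlgebraic_zero ?_
    intro k _
    rw [Matrix.smul_apply, smul_eq_mul]
    refine (halg k).mul ?_
    have h2 : (bc p Θ) ^ k = bc p (Θ ^ k) :=
      ((algebraMap ℚ ℚ_[p]).mapMatrix.map_pow Θ k).symm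
    rw [h2]
    exact isAlgebraic_algebraMap _
  have hzero : aeval (bc p Θ) h' = 0 := by
    ext i j
    have h3 := hw (fun j => (aeval (bc p Θ) h') i j) (hent i) (by
      have := congrFun hkill i
      simpa [Matrix.mulVec, dotProduct] using this)
    exact congrFun h3 j
  obtain ⟨q, hq⟩ := hdvdg
  rw [hq, map_mul, hzero, zero_mul]

end Pool.Agent.X268.PC
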