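import Pool.Agent.X268.PC.Alg

/-!
# Independence over `ℚ_p` of the logarithms of the points of a line
-/

namespace Pool.Agent.X268.PC

open Polynomial

variable {p : ℕ} [Fact p.Prime] {n : ℕ} {M R P : Type} [AddCommGroup M] [Ring R]
  [Module R M] [AddCommGroup P] [TopologicalSpace P] [IsTopologicalAddGroup P]
  [CompactSpace P] [T2Space P]

/-- `lie` commutes with evaluation of integral polynomials. -/
theorem lie_aeval (S : SimpleAV p n M R P) (θ : R) (g : ℤ[X]) :
    S.lie (aeval θ g) = aeval (S.lie θ) (g.map (algebraMap ℤ ℚ)) := by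
  rw [aeval_def, hom_eval₂, aeval_def, eval₂_map]
  congr 1
  exact RingHom.ext_int _ _

/-- Elements of `M` with zero logarithm are torsion. -/
theorem torsion_of_lg (S : SimpleAV p n M R P) (z : M) (h : S.lg (S.emb z) = 0) :
    IsOfFinAddOrder z := by
  have h1 := (S.lg_ker _).mp h
  obtain ⟨t, ht, ht0⟩ := isOfFinAddOrder_iff_nsmul_eq_zero.mp h1
  refine isOfFinAddOrder_iff_nsmul_eq_zero.mpr ⟨t, ht, S.emb_inj ?_⟩
  rw [map_nsmul, ht0, map_zero]

theorem indep_line (S : SimpleAV p n M R P) (x : M) (hx : ¬ IsOfFinAddOrder x) (θ : R)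
    {m : ℕ} (y : Fin m → M) (hy : LinearIndependent ℤ y)
    (hyx : ∀ i, ∃ k : ℤ, k ≠ 0 ∧ ∃ g : ℤ[X], k • y i = aeval θ g • x)
    (a : Fin m → ℚ_[p]) (ha : ∑ i, a i • S.lg (S.emb (y i)) = 0) : a = 0 := by
  classical
  choose k hk g hg using hyx
  have hkQ : ∀ i, ((k i : ℤ) : ℚ_[p]) ≠ 0 := fun i => by exact_mod_cast hk i
  set w : Fin n → ℚ_[p] := S.lg (S.emb x) with hw
  set Θ : Matrix (Fin n) (Fin n) ℚ := S.lie θ with hΘ
  let v : Fin m → Matrix (Fin n) (Fin n) ℚ := fun i => aeval Θ ((g i).map (algebraMap ℤ ℚ))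
  have hv : ∀ i, v i = S.lie (aeval θ (g i)) := fun i => (lie_aeval S θ (g i)).symm
  -- logarithms of the multiples
  have hlog : ∀ i, ((k i : ℤ) : ℚ_[p]) • S.lg (S.emb (y i)) = (bc p (v i)).mulVec w := by
    intro i
    have h1 : S.lg (S.emb (k i • y i)) = (bc p (v i)).mulVec w := by
      rw [hg i, S.lg_smul, hv i]
    rw [← h1, map_zsmul, map_zsmul]
    exact (Int.cast_smul_eq_zsmul _ _ _)
  -- the matrices are independent over `ℚ`
  have hvind : LinearIndependent ℚ v := by
    rw [← LinearIndependent.iff_fractionRing ℤ ℚ, Fintype.linearIndependent_iff]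
    intro q hq
    have h1 : ∑ i, ((q i : ℤ) : ℚ_[p]) • bc p (v i) = 0 := by
      have h2 : bc p (∑ i, q i • v i) = 0 := by
        rw [hq]
        ext i j
        simp
      have h3 : bc p (∑ i, q i • v i) = ∑ i, ((q i : ℤ) : ℚ_[p]) • bc p (v i) := by
        have h4 : bc p (∑ i, q i • v i) = (algebraMap ℚ ℚ_[p]).mapMatrix (∑ i, q i • v i) := rfl
        rw [h4, map_sum]
        refine Finset.sum_congr rfl fun i _ => ?_
        rw [map_zsmul]
        exact (Int.cast_smul_eq_zsmul _ _ _).symm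
      rw [← h3, h2]
    have h2 : S.lg (S.emb (∑ i, (q i * k i) • y i)) = 0 := by
      rw [map_sum, map_sum]
      calc ∑ i, S.lg (S.emb ((q i * k i) • y i))
          = ∑ i, ((q i : ℤ) : ℚ_[p]) • (bc p (v i)).mulVec w := by
            refine Finset.sum_congr rfl fun i _ => ?_
            rw [← hlog i, smul_smul, map_zsmul, map_zsmul, ← Int.cast_mul]
            exact (Int.cast_smul_eq_zsmul _ _ _).symm
        _ = (∑ i, ((q i : ℤ) : ℚ_[p]) • bc p (v i)).mulVec w := by
            rw [Matrix.sum_mulVec]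
            refine Finset.sum_congr rfl fun i _ => ?_
            rw [Matrix.smul_mulVec]
        _ = 0 := by rw [h1, Matrix.zero_mulVec]
    have h3 := torsion_of_lg S _ h2
    obtain ⟨t, ht, ht0⟩ := isOfFinAddOrder_iff_nsmul_eq_zero.mp h3
    have h4 : ∑ i, ((t : ℤ) * (q i * k i)) • y i = 0 := by
      rw [← ht0, Finset.smul_sum]
      refine Finset.sum_congr rfl fun i _ => ?_
      rw [mul_smul, natCast_zsmul]
    intro i
    have h5 := Fintype.linearIndependent_iff.mp hy _ h4 i
    have ht' : (t : ℤ) ≠ 0 := by exact_mod_cast ht.ne'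
    rcases mul_eq_zero.mp h5 with h6 | h6
    · exact absurd h6 ht'
    · rcases mul_eq_zero.mp h6 with h7 | h7
      · exact h7
      · exact absurd h7 (hk i)
  -- the polynomial relation
  let G : ℚ_[p][X] := ∑ i, C (a i / k i) * ((g i).map (algebraMap ℤ ℚ)).map (algebraMap ℚ ℚ_[p])
  have hG : aeval (bc p Θ) G = ∑ i, (a i / k i) • bc p (v i) := by
    simp only [G, map_sum, map_mul, aeval_C]
    refine Finset.sum_congr rfl fun i _ => ?_
    rw [← bc_aeval, Algebra.smul_def]
  have hGw : (aeval (bc p Θ) G).mulVec w = 0 := by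
    rw [hG, Matrix.sum_mulVec, ← ha]
    refine Finset.sum_congr rfl fun i _ => ?_
    rw [Matrix.smul_mulVec, ← hlog i, smul_smul, div_mul_cancel₀ _ (hkQ i)]
  have hG0 := aeval_eq_zero Θ w (S.analytic_subgroup x hx) G hGw
  rw [hG] at hG0
  have h6 := indep_bc v hvind _ hG0
  funext i
  have h7 := congrFun h6 i
  simp only [Pi.zero_apply] at h7 ⊢
  rcases div_eq_zero_iff.mp h7 with h8 | h8
  · exact h8
  · exact absurd h8 (hkQ i)

end Pool.Agent.X268.PC
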