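import Pool.Agent.X268.PC.Prim

/-!
# The closure of a group of rational points on a line over a commutative ring of endomorphisms
-/

namespace Pool.Agent.X268.PC

open Polynomial

variable {p : ℕ} [Fact p.Prime] {n : ℕ} {M R P : Type} [AddCommGroup M] [Ring R]
  [Module R M] [AddCommGroup P] [TopologicalSpace P] [IsTopologicalAddGroup P]
  [CompactSpace P] [T2Space P]

/-- A subgroup of a finitely generated group has a maximal independent family. -/
theorem exists_family (hM : Module.Finite ℤ M) (L : AddSubgroup M) :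
    ∃ y : Fin (Module.finrank ℤ L) → M, (∀ i, y i ∈ L) ∧ LinearIndependent ℤ y ∧
      ∃ K : ℤ, K ≠ 0 ∧ ∀ z ∈ L, ∃ b : Fin (Module.finrank ℤ L) → ℤ, K • z = ∑ i, b i • y i := by
  classical
  have hnoeth : IsNoetherian ℤ M := isNoetherian_of_isNoetherianRing_of_finite ℤ M
  have hLfin : Module.Finite ℤ L :=
    Module.Finite.of_injective (L.subtype.toIntLinearMap) Subtype.val_injective
  set m := Module.finrank ℤ L with hm
  obtain ⟨f, hf⟩ := exists_linearIndependent_of_le_finrank (R := ℤ) (M := L) (le_refl m)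
  -- single elements
  have hone : ∀ z : L, ∃ k : ℤ, k ≠ 0 ∧ ∃ b : Fin m → ℤ, k • z = ∑ i, b i • f i := by
    intro z
    by_contra hcon
    push Not at hcon
    have hind : LinearIndependent ℤ (Fin.cons z f : Fin (m + 1) → L) := by
      rw [Fintype.linearIndependent_iff]
      intro g hg
      rw [Fin.sum_univ_succ] at hg
      simp only [Fin.cons_zero, Fin.cons_succ] at hg
      have h0 : g 0 = 0 := by
        by_contra h0
        refine hcon (g 0) h0 (fun i => - g i.succ) ?_
        rw [eq_comm, ← sub_eq_zero]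
        simp only [neg_smul, Finset.sum_neg_distrib]
        rw [← neg_eq_zero, neg_sub, sub_neg_eq_add]
        exact hg
      rw [h0, zero_smul, zero_add] at hg
      have h1 := Fintype.linearIndependent_iff.mp hf _ hg
      intro i
      refine Fin.cases h0 (fun j => h1 j) i
    have hcard := hind.fintype_card_le_finrank
    rw [Fintype.card_fin] at hcard
    omega
  obtain ⟨s, hs⟩ := hLfin.fg_top
  choose k hk b hb using hone
  refine ⟨fun i => (f i : M), fun i => (f i).2, ?_, ∏ z ∈ s, k z,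
    Finset.prod_ne_zero_iff.mpr fun z _ => hk z, ?_⟩
  · have := hf.map' (L.subtype.toIntLinearMap) (LinearMap.ker_eq_bot.mpr Subtype.val_injective)
    exact this
  · intro z hz
    have hzs : (⟨z, hz⟩ : L) ∈ Submodule.span ℤ (s : Set L) := by rw [hs]; trivial
    suffices h : ∀ w : L, w ∈ Submodule.span ℤ (s : Set L) →
        ∃ c : Fin m → ℤ, (∏ z ∈ s, k z) • w = ∑ i, c i • f i by
      obtain ⟨c, hc⟩ := h _ hzs
      refine ⟨c, ?_⟩
      have h1 := congrArg Subtype.val hc
      simpa only [AddSubgroup.coe_zsmul, AddSubmonoidClass.coe_finsetSum] using h1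
    intro w hw
    refine Submodule.span_induction (p := fun w _ => ∃ c : Fin m → ℤ,
      (∏ z ∈ s, k z) • w = ∑ i, c i • f i) ?_ ?_ ?_ ?_ hw
    · intro x hx
      have hx' : x ∈ s := hx
      refine ⟨fun i => (∏ z ∈ s.erase x, k z) * b x i, ?_⟩
      rw [← Finset.prod_erase_mul s k hx', mul_smul, hb x, Finset.smul_sum]
      refine Finset.sum_congr rfl fun i _ => ?_
      rw [mul_smul]
    · exact ⟨0, by simp⟩
    · rintro x x' _ _ ⟨c, hc⟩ ⟨c', hc'⟩
      refine ⟨c + c', ?_⟩
      rw [smul_add, hc, hc', ← Finset.sum_add_distrib]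
      refine Finset.sum_congr rfl fun i _ => ?_
      rw [Pi.add_apply, add_smul]
    · rintro a x _ ⟨c, hc⟩
      refine ⟨a • c, ?_⟩
      rw [smul_comm, hc, Finset.smul_sum]
      refine Finset.sum_congr rfl fun i _ => ?_
      rw [Pi.smul_apply, smul_smul, smul_eq_mul]

/-- Members of an independent family are not torsion. -/
theorem not_torsion_of_indep {m : ℕ} {y : Fin m → M} (hy : LinearIndependent ℤ y) (i : Fin m) :
    ¬ IsOfFinAddOrder (y i) := by
  classical
  intro h
  obtain ⟨t, ht, ht0⟩ := isOfFinAddOrder_iff_nsmul_eq_zero.mp h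
  have h1 := Fintype.linearIndependent_iff.mp hy (Pi.single i (t : ℤ)) (by
    rw [Finset.sum_eq_single i]
    · rw [Pi.single_eq_same, natCast_zsmul, ht0]
    · intro j _ hj
      rw [Pi.single_eq_of_ne hj, zero_smul]
    · intro h; exact absurd (Finset.mem_univ i) h) i
  rw [Pi.single_eq_same] at h1
  have : (t : ℤ) ≠ 0 := by exact_mod_cast ht.ne'
  exact this h1

/-- Nonzero endomorphisms do not kill points of infinite order. -/
theorem smul_ne_zero' (S : SimpleAV p n M R P) (r : R) (hr : r ≠ 0) (x : M)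
    (hx : ¬ IsOfFinAddOrder x) : r • x ≠ 0 := by
  intro h
  obtain ⟨N, hN, r', hr'⟩ := exists_left_inv R S.end_finite S.end_domain r hr
  have h1 : (N : R) • x = 0 := by rw [← hr', mul_smul, h, smul_zero]
  rw [Int.cast_smul_eq_zsmul] at h1
  apply hx
  rw [isOfFinAddOrder_iff_nsmul_eq_zero]
  refine ⟨N.natAbs, Int.natAbs_pos.mpr hN, ?_⟩
  rcases Int.natAbs_eq N with h2 | h2
  · rw [h2, natCast_zsmul] at h1; exact h1
  · rw [h2, neg_smul, natCast_zsmul, neg_eq_zero] at h1; exact h1

/-- The main criterion. -/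
theorem hasZpRank_of_line (S : SimpleAV p n M R P) (L : AddSubgroup M)
    (hline : ∀ y : Fin (Module.finrank ℤ L) → M, (∀ i, y i ∈ L) → LinearIndependent ℤ y →
      0 < Module.finrank ℤ L → ∃ x : M, ¬ IsOfFinAddOrder x ∧ ∃ θ : R,
        ∀ i, ∃ k : ℤ, k ≠ 0 ∧ ∃ g : ℤ[X], k • y i = aeval θ g • x) :
    HasZpRank p (L.map S.emb).topologicalClosure (Module.finrank ℤ L) := by
  obtain ⟨y, hyL, hyi, K, hK, hmax⟩ := exists_family S.mordellWeil L
  refine hasZpRank_of_indep S L y hyL K hK hmax ?_
  intro a ha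
  rcases Nat.eq_zero_or_pos (Module.finrank ℤ L) with h0 | h0
  · funext i
    exact absurd i.2 (by omega)
  · obtain ⟨x, hx, θ, hθ⟩ := hline y hyL hyi h0
    exact indep_line S x hx θ y hyi hθ a ha

/-- Lines over a commutative ring of endomorphisms. -/
theorem commutative_case (S : SimpleAV p n M R P) (C : Subring R)
    (hC : ∀ a ∈ C, ∀ b ∈ C, a * b = b * a) (N : AddSubgroup M)
    (hN : ∀ a ∈ C, ∀ y ∈ N, a • y ∈ N) (hrk : Module.finrank ℤ N ≤ Module.finrank ℤ C)
    (L : AddSubgroup M) (hL : L ≤ N) :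
    HasZpRank p (L.map S.emb).topologicalClosure (Module.finrank ℤ L) := by
  classical
  refine hasZpRank_of_line S L ?_
  intro y hyL hyi h0
  let x : M := y ⟨0, h0⟩
  have hx : ¬ IsOfFinAddOrder x := not_torsion_of_indep hyi _
  refine ⟨x, hx, ?_⟩
  -- the commutative domain `C`
  let _ : CommRing C := { (inferInstance : Ring C) with
    mul_comm := fun a b => Subtype.ext (hC a a.2 b b.2) }
  have hchar : CharZero R := by
    have : NeZero n := ⟨by have := S.dim_pos; omega⟩
    have : Nonempty (Fin n) := ⟨0⟩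
    have h1 : CharZero (Matrix (Fin n) (Fin n) ℚ) := by
      refine ⟨fun a b hab => ?_⟩
      have h2 := congrFun (congrFun hab 0) 0
      simpa [Matrix.natCast_apply] using h2
    exact ⟨fun a b hab => Nat.cast_injective (R := Matrix (Fin n) (Fin n) ℚ) (by
      have h2 := congrArg S.lie hab
      simpa using h2)⟩
  have hcharC : CharZero C := ⟨fun a b hab => by
    have h2 := congrArg Subtype.val hab
    simp only [SubringClass.coe_natCast] at h2
    exact_mod_cast h2⟩
  have hnz : NoZeroDivisors C := ⟨fun {a b} hab => by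
    have h1 := congrArg Subtype.val hab
    rcases S.end_domain a b h1 with h2 | h2
    · exact Or.inl (Subtype.ext h2)
    · exact Or.inr (Subtype.ext h2)⟩
  have hnt : Nontrivial C := ⟨0, 1, fun h => by
    have h1 : ((0 : ℕ) : C) = ((1 : ℕ) : C) := by rw [Nat.cast_zero, Nat.cast_one, h]
    exact absurd (hcharC.cast_injective h1) (by norm_num)⟩
  have hdomC : IsDomain C := NoZeroDivisors.to_isDomain C
  have hnoethR : IsNoetherian ℤ R :=
    @isNoetherian_of_isNoetherianRing_of_finite ℤ R _ _ _ _ S.end_finite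
  have hfinC : Module.Finite ℤ C :=
    Module.Finite.of_injective (C.subtype.toAddMonoidHom.toIntLinearMap) Subtype.val_injective
  have hnoethM : IsNoetherian ℤ M :=
    @isNoetherian_of_isNoetherianRing_of_finite ℤ M _ _ _ _ S.mordellWeil
  have hfinN : Module.Finite ℤ N :=
    Module.Finite.of_injective (N.subtype.toIntLinearMap) Subtype.val_injective
  obtain ⟨θ, hθ⟩ := exists_prim C
  refine ⟨θ, ?_⟩
  -- every element of `N` is on the line
  have hxN : x ∈ N := hL (hyL _)
  have hline : ∀ z ∈ N, ∃ k : ℤ, k ≠ 0 ∧ ∃ c : C, k • z = (c : R) • x := by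
    intro z hz
    obtain ⟨f, hf⟩ := exists_linearIndependent_of_le_finrank (R := ℤ) (M := C)
      (le_refl (Module.finrank ℤ C))
    let w : Fin (Module.finrank ℤ C + 1) → N :=
      Fin.cons ⟨z, hz⟩ (fun i => ⟨(f i : R) • x, hN _ (f i).2 _ hxN⟩)
    by_contra hcon
    push Not at hcon
    have hind : LinearIndependent ℤ w := by
      rw [Fintype.linearIndependent_iff]
      intro g hg
      rw [Fin.sum_univ_succ] at hg
      simp only [w, Fin.cons_zero, Fin.cons_succ] at hg
      have hg' : g 0 • z + ((∑ i : Fin (Module.finrank ℤ C), g i.succ • f i : C) : R) • x = 0 := by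
        have h1 := congrArg Subtype.val hg
        simp only [AddSubgroup.coe_add, AddSubgroup.coe_zsmul, AddSubmonoidClass.coe_finsetSum,
          AddSubgroup.coe_zero] at h1
        rw [← h1]
        congr 1
        rw [AddSubmonoidClass.coe_finsetSum, Finset.sum_smul]
        refine Finset.sum_congr rfl fun i _ => ?_
        rw [← smul_assoc]
        rfl
      have h0 : g 0 = 0 := by
        by_contra h0
        refine hcon (g 0) h0 (-∑ i : Fin (Module.finrank ℤ C), g i.succ • f i) ?_
        rw [Subring.coe_neg, neg_smul]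
        exact eq_neg_of_add_eq_zero_left hg'
      rw [h0, zero_smul, zero_add] at hg'
      have h2 : ((∑ i : Fin (Module.finrank ℤ C), g i.succ • f i : C) : R) = 0 := by
        by_contra h2
        exact smul_ne_zero' S _ h2 x hx hg'
      have h3 := Fintype.linearIndependent_iff.mp hf _ (Subtype.ext h2)
      intro i
      refine Fin.cases h0 (fun j => h3 j) i
    have hcard := hind.fintype_card_le_finrank
    rw [Fintype.card_fin] at hcard
    omega
  intro i
  obtain ⟨k, hk, c, hc⟩ := hline (y i) (hL (hyL i))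
  obtain ⟨k', hk', g, hg⟩ := hθ c
  refine ⟨k' * k, mul_ne_zero hk' hk, g, ?_⟩
  have h1 : (k' • (c : R)) = aeval (θ : R) g := by
    have h2 := congrArg C.subtype hg
    have h3 : C.subtype (aeval θ g) = aeval (θ : R) g := by
      rw [aeval_def, hom_eval₂, aeval_def]
      congr 1
    rw [h3] at h2
    rw [← h2]
    rfl
  rw [mul_smul, hc, ← smul_assoc, h1]

/-- Subgroups of rank at most two of a line over the whole endomorphism ring. -/
theorem rank_two_case (S : SimpleAV p n M R P) (x : M) (L : AddSubgroup M)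
    (hL : ∀ y ∈ L, ∃ k : ℤ, k ≠ 0 ∧ ∃ r : R, k • y = r • x) (hrk : Module.finrank ℤ L ≤ 2) :
    HasZpRank p (L.map S.emb).topologicalClosure (Module.finrank ℤ L) := by
  classical
  refine hasZpRank_of_line S L ?_
  intro y hyL hyi h0
  have hx₀ : ¬ IsOfFinAddOrder (y ⟨0, h0⟩) := not_torsion_of_indep hyi _
  refine ⟨y ⟨0, h0⟩, hx₀, ?_⟩
  obtain ⟨k₀, hk₀, r₀, hr₀⟩ := hL _ (hyL ⟨0, h0⟩)
  have hr₀0 : r₀ ≠ 0 := by
    rintro rfl
    rw [zero_smul] at hr₀
    apply hx₀
    rw [isOfFinAddOrder_iff_nsmul_eq_zero]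
    refine ⟨k₀.natAbs, Int.natAbs_pos.mpr hk₀, ?_⟩
    rcases Int.natAbs_eq k₀ with h2 | h2
    · rw [h2, natCast_zsmul] at hr₀; exact hr₀
    · rw [h2, neg_smul, natCast_zsmul, neg_eq_zero] at hr₀; exact hr₀
  obtain ⟨N, hN, r', hr'⟩ := exists_left_inv R S.end_finite S.end_domain r₀ hr₀0
  have hNx : N • x = (k₀ • r') • y ⟨0, h0⟩ := by
    rw [smul_assoc, ← smul_comm, hr₀, ← mul_smul, hr', Int.cast_smul_eq_zsmul]
  by_cases h1 : Module.finrank ℤ L = 1
  · refine ⟨0, fun i => ⟨1, one_ne_zero, 1, ?_⟩⟩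
    have : i = ⟨0, h0⟩ := Fin.ext (by have := i.2; omega)
    rw [this, one_smul, map_one, one_smul]
  · have h2 : 1 < Module.finrank ℤ L := by omega
    obtain ⟨k₁, hk₁, r₁, hr₁⟩ := hL _ (hyL ⟨1, h2⟩)
    refine ⟨r₁ * (k₀ • r'), fun i => ?_⟩
    rcases Nat.eq_zero_or_pos i.1 with h3 | h3
    · have : i = ⟨0, h0⟩ := Fin.ext h3
      refine ⟨1, one_ne_zero, 1, ?_⟩
      rw [this, one_smul, map_one, one_smul]
    · have : i = ⟨1, h2⟩ := Fin.ext (by have := i.2; simp only; omega)
      refine ⟨N * k₁, mul_ne_zero hN hk₁, X, ?_⟩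
      rw [this, aeval_X, mul_smul, hr₁, mul_smul, ← hNx, ← smul_comm]

end Pool.Agent.X268.PC
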