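import Pool.Agent.X268.PC.Top

/-!
# Orders in number fields: division and primitive elements
-/

namespace Pool.Agent.X268.PC

open Polynomial

/-- In a ring without zero divisors whose additive group is finitely generated and torsion free,
every nonzero element divides a nonzero integer. -/
theorem exists_left_inv (R : Type) [Ring R] (hfin : Module.Finite ℤ R)
    (hdom : ∀ r s : R, r * s = 0 → r = 0 ∨ s = 0) (r : R) (hr : r ≠ 0) :
    ∃ N : ℤ, N ≠ 0 ∧ ∃ r' : R, r' * r = (N : R) := by
  have hint : IsIntegral ℤ r := Algebra.IsIntegral.isIntegral r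
  obtain ⟨f, hfm, hf⟩ := hint
  have hf' : aeval r f = 0 := hf
  obtain ⟨g, hg, hg0⟩ := exists_eq_pow_rootMultiplicity_mul_and_not_dvd f hfm.ne_zero 0
  rw [C_0, sub_zero] at hg hg0
  have hgc : g.coeff 0 ≠ 0 := fun h => hg0 (X_dvd_iff.mpr h)
  have hpow : ∀ (k : ℕ) (s : R), r ^ k * s = 0 → s = 0 := by
    intro k
    induction k with
    | zero => intro s hs; simpa using hs
    | succ k ih =>
      intro s hs
      rw [pow_succ, mul_assoc] at hs
      rcases hdom _ _ (ih _ hs) with h | h
      · exact absurd h hr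
      · exact h
  have hgr : aeval r g = 0 := by
    rw [hg, map_mul, map_pow, aeval_X] at hf'
    exact hpow _ _ hf'
  refine ⟨-g.coeff 0, neg_ne_zero.mpr hgc, aeval r g.divX, ?_⟩
  have h1 := divX_mul_X_add g
  have h2 := congrArg (aeval r) h1
  rw [map_add, map_mul, aeval_X, aeval_C, hgr] at h2
  rw [Int.cast_neg, ← add_eq_zero_iff_eq_neg]
  simpa using h2

/-- An order in a number field has a primitive element. -/
theorem exists_prim (E : Type) [CommRing E] [IsDomain E] [CharZero E] [Module.Finite ℤ E] :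
    ∃ θ : E, ∀ r : E, ∃ k : ℤ, k ≠ 0 ∧ ∃ g : ℤ[X], k • r = aeval θ g := by
  classical
  let F := FractionRing E
  have hinjC : Function.Injective (algebraMap E F) := IsFractionRing.injective E F
  have : CharZero F := charZero_of_injective_algebraMap hinjC
  -- every element of `F` is an element of `E` divided by an integer
  have hfrac : ∀ z : F, ∃ N : ℤ, N ≠ 0 ∧ ∃ c : E, (N : F) * z = algebraMap E F c := by
    intro z
    obtain ⟨a, b, hb, rfl⟩ := IsFractionRing.div_surjective (A := E) z
    have hb0 : b ≠ 0 := nonZeroDivisors.ne_zero hb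
    obtain ⟨N, hN, b', hb'⟩ := exists_left_inv E inferInstance
      (fun r s h => mul_eq_zero.mp h) b hb0
    refine ⟨N, hN, b' * a, ?_⟩
    have hbF : algebraMap E F b ≠ 0 := by
      rw [map_ne_zero_iff _ hinjC]; exact hb0
    have h1 : (N : F) = algebraMap E F b' * algebraMap E F b := by
      rw [← map_mul, hb', map_intCast]
    rw [h1, map_mul, mul_assoc, mul_div_cancel₀ _ hbF]
  -- finite dimension
  obtain ⟨s, hs⟩ := Module.Finite.fg_top (R := ℤ) (M := E)
  have : FiniteDimensional ℚ F := by
    refine ⟨⟨s.image (algebraMap E F), ?_⟩⟩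
    rw [eq_top_iff]
    intro z _
    obtain ⟨N, hN, c, hc⟩ := hfrac z
    have hNQ : (N : ℚ) ≠ 0 := by exact_mod_cast hN
    have hcm : algebraMap E F c ∈ Submodule.span ℚ
        ((s.image (algebraMap E F) : Finset F) : Set F) := by
      have hcs : c ∈ Submodule.span ℤ (s : Set E) := by rw [hs]; trivial
      refine Submodule.span_induction (p := fun c _ => algebraMap E F c ∈ Submodule.span ℚ
        ((s.image (algebraMap E F) : Finset F) : Set F)) ?_ ?_ ?_ ?_ hcs
      · intro x hx
        refine Submodule.subset_span ?_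
        rw [Finset.coe_image]
        exact ⟨x, hx, rfl⟩
      · rw [map_zero]; exact Submodule.zero_mem _
      · intro x y _ _ hx hy
        rw [map_add]; exact Submodule.add_mem _ hx hy
      · intro a x _ hx
        rw [map_zsmul]
        exact zsmul_mem hx a
    have hz : z = (N : ℚ)⁻¹ • algebraMap E F c := by
      rw [← hc, ← Int.cast_smul_eq_zsmul ℚ N z |>.trans (zsmul_eq_mul z N), smul_smul,
        inv_mul_cancel₀ hNQ, one_smul]
    rw [hz]
    exact Submodule.smul_mem _ _ hcm
  obtain ⟨α, hα⟩ := Field.exists_primitive_element ℚ F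
  obtain ⟨N, hN, θ, hθ⟩ := hfrac α
  have hNQ : (N : ℚ) ≠ 0 := by exact_mod_cast hN
  refine ⟨θ, fun r => ?_⟩
  -- `r` is a rational polynomial in `α`
  have h1 : algebraMap E F r ∈ IntermediateField.adjoin ℚ {α} := by rw [hα]; trivial
  have hαint : IsIntegral ℚ α := Algebra.IsIntegral.isIntegral α
  rw [← IntermediateField.mem_toSubalgebra,
    IntermediateField.adjoin_simple_toSubalgebra_of_isAlgebraic hαint.isAlgebraic,
    Algebra.adjoin_singleton_eq_range_aeval] at h1
  obtain ⟨q, hq⟩ := h1
  have hq' : aeval α q = algebraMap E F r := hq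
  -- rescale
  have hα' : α = aeval (algebraMap E F θ) (C ((N : ℚ)⁻¹) * X : ℚ[X]) := by
    rw [map_mul, aeval_C, aeval_X, ← hθ, ← Algebra.smul_def,
      ← Int.cast_smul_eq_zsmul ℚ N α |>.trans (zsmul_eq_mul α N), smul_smul,
        inv_mul_cancel₀ hNQ, one_smul]
  set q₁ : ℚ[X] := q.comp (C ((N : ℚ)⁻¹) * X) with hq₁
  have hq₁' : aeval (algebraMap E F θ) q₁ = algebraMap E F r := by
    rw [hq₁, aeval_comp, ← hα', hq']
  obtain ⟨b, hbm, hb⟩ := IsLocalization.integerNormalization_spec (nonZeroDivisors ℤ) q₁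
  refine ⟨b, nonZeroDivisors.ne_zero hbm, IsLocalization.integerNormalization
    (nonZeroDivisors ℤ) q₁, ?_⟩
  apply hinjC
  have h2 : algebraMap E F (aeval θ (IsLocalization.integerNormalization (nonZeroDivisors ℤ) q₁)) =
      aeval (algebraMap E F θ) ((IsLocalization.integerNormalization (nonZeroDivisors ℤ) q₁).map
        (algebraMap ℤ ℚ)) := by
    rw [aeval_def, hom_eval₂, aeval_def, eval₂_map]
    congr 1
    exact RingHom.ext_int _ _
  rw [h2, hb, map_zsmul, map_zsmul, hq₁']

end Pool.Agent.X268.PC
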