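import Mathlib

/-!
# `p`-adic closures of groups of rational points of a simple abelian variety: the set-up
-/

namespace Pool.Agent.X268.PC

open Polynomial

/-- The data attached to a simple abelian variety `A` over `ℚ` of dimension `n` and a prime `p`
that are used below.  `M` is the group `A(ℚ)`, `R` is the ring `End_ℚ(A)`, and `P` is the
topological group `A(ℚ_p)`. -/
structure SimpleAV (p : ℕ) [Fact p.Prime] (n : ℕ) (M R P : Type) [AddCommGroup M] [Ring R]
    [Module R M] [AddCommGroup P] [TopologicalSpace P] [IsTopologicalAddGroup P]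
    [CompactSpace P] [T2Space P] where
  /-- `n ≥ 1`. -/
  dim_pos : 1 ≤ n
  /-- Mordell–Weil. -/
  mordellWeil : Module.Finite ℤ M
  /-- `End_ℚ(A)` is a finitely generated abelian group. -/
  end_finite : Module.Finite ℤ R
  /-- `A` is simple, so a product of nonzero endomorphisms is nonzero. -/
  end_domain : ∀ r s : R, r * s = 0 → r = 0 ∨ s = 0
  /-- `A(ℚ_p)` has an open subgroup of finite index isomorphic to `ℤ_p ^ n`. -/
  open_subgroup : ∃ P₀ : AddSubgroup P, IsOpen (P₀ : Set P) ∧ P₀.FiniteIndex ∧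
    Nonempty (P₀ ≃ₜ+ (Fin n → ℤ_[p]))
  /-- The inclusion `A(ℚ) → A(ℚ_p)`. -/
  emb : M →+ P
  emb_inj : Function.Injective emb
  /-- The logarithm `A(ℚ_p) → Lie(A) ⊗ ℚ_p`, in coordinates with respect to a basis of the
  `ℚ`-vector space `Lie(A)`. -/
  lg : P →+ (Fin n → ℚ_[p])
  lg_continuous : Continuous lg
  /-- The kernel of the logarithm is the torsion subgroup. -/
  lg_ker : ∀ z : P, lg z = 0 ↔ IsOfFinAddOrder z
  /-- The action of `End_ℚ(A)` on `Lie(A)`. -/
  lie : R →+* Matrix (Fin n) (Fin n) ℚ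
  lie_inj : Function.Injective lie
  lg_smul : ∀ (r : R) (x : M),
    lg (emb (r • x)) = ((lie r).map (algebraMap ℚ ℚ_[p])).mulVec (lg (emb x))
  /-- The `p`-adic analytic subgroup theorem for the simple abelian variety `A` and a rational
  point `x` of infinite order: `log x` lies on no hyperplane of `Lie(A) ⊗ ℚ_p` whose equation
  has algebraic coefficients. -/
  analytic_subgroup : ∀ x : M, ¬ IsOfFinAddOrder x → ∀ c : Fin n → ℚ_[p],
    (∀ j, IsAlgebraic ℚ (c j)) → ∑ j, c j * lg (emb x) j = 0 → c = 0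

/-- The subgroup `H` has an open subgroup of finite index isomorphic to `ℤ_p ^ d`. -/
def HasZpRank (p : ℕ) [Fact p.Prime] {P : Type} [AddCommGroup P] [TopologicalSpace P]
    (H : AddSubgroup P) (d : ℕ) : Prop :=
  ∃ U : AddSubgroup P, U ≤ H ∧ (∃ O : Set P, IsOpen O ∧ (U : Set P) = O ∩ H) ∧
    U.relIndex H ≠ 0 ∧ Nonempty (U ≃ₜ+ (Fin d → ℤ_[p]))

end Pool.Agent.X268.PC
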