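import Pool.Agent.X268.PC.Line

/-!
# The closure of a group whose logarithms are independent
-/

namespace Pool.Agent.X268.PC

open Polynomial

variable {p : ℕ} [Fact p.Prime] {n : ℕ} {M R P : Type} [AddCommGroup M] [Ring R]
  [Module R M] [AddCommGroup P] [TopologicalSpace P] [IsTopologicalAddGroup P]
  [CompactSpace P] [T2Space P]

/-- A continuous additive map out of a `ℤ_p`-module into a `ℚ_p`-vector space commutes with the
action of `ℤ_p`. -/
theorem map_padic_smul {V : Type} [AddCommGroup V] [Module ℤ_[p] V] [TopologicalSpace V]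
    [ContinuousSMul ℤ_[p] V] (F : V →+ (Fin n → ℚ_[p])) (hF : Continuous F)
    (a : ℤ_[p]) (v : V) : F (a • v) = (a : ℚ_[p]) • F v := by
  have h1 : Continuous fun a : ℤ_[p] => F (a • v) := hF.comp (continuous_id.smul continuous_const)
  have h2 : Continuous fun a : ℤ_[p] => (a : ℚ_[p]) • F v :=
    (continuous_subtype_val).smul continuous_const
  have h3 : (fun a : ℤ_[p] => F (a • v)) = fun a : ℤ_[p] => (a : ℚ_[p]) • F v := by
    refine (PadicInt.denseRange_natCast (p := p)).equalizer h1 h2 ?_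
    funext k
    simp only [Function.comp_apply]
    rw [Nat.cast_smul_eq_nsmul, map_nsmul, PadicInt.coe_natCast, Nat.cast_smul_eq_nsmul]
  exact congrFun h3 a

/-- A closed subgroup of `ℤ_p ^ n` is a submodule. -/
def closedSubmodule (H : AddSubgroup (Fin n → ℤ_[p])) (hH : IsClosed (H : Set (Fin n → ℤ_[p]))) :
    Submodule ℤ_[p] (Fin n → ℤ_[p]) where
  carrier := H
  add_mem' := H.add_mem
  zero_mem' := H.zero_mem
  smul_mem' := by
    intro a v hv
    have h1 : Continuous fun a : ℤ_[p] => a • v := continuous_id.smul continuous_const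
    have h2 : IsClosed {a : ℤ_[p] | a • v ∈ H} := hH.preimage h1
    have h3 : {a : ℤ_[p] | a • v ∈ H} = Set.univ := by
      rw [← h2.closure_eq]
      refine Set.eq_univ_of_univ_subset ?_
      rw [← (PadicInt.denseRange_natCast (p := p)).closure_range]
      refine closure_mono ?_
      rintro _ ⟨k, rfl⟩
      simp only [Set.mem_ofPred_eq, Nat.cast_smul_eq_nsmul]
      exact H.nsmul_mem hv k
    have : a ∈ {a : ℤ_[p] | a • v ∈ H} := by rw [h3]; trivial
    exact this

/-- The span of a finite family is closed in `ℤ_p ^ n`. -/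
theorem isClosed_span {m : ℕ} (v : Fin m → Fin n → ℤ_[p]) :
    IsClosed (Submodule.span ℤ_[p] (Set.range v) : Set (Fin n → ℤ_[p])) := by
  have h1 : (Submodule.span ℤ_[p] (Set.range v) : Set (Fin n → ℤ_[p])) =
      Set.range fun c : Fin m → ℤ_[p] => ∑ i, c i • v i := by
    ext w
    simp only [SetLike.mem_coe, Submodule.mem_span_range_iff_exists_fun, Set.mem_range]
  rw [h1]
  refine IsCompact.isClosed ?_
  rw [← Set.image_univ]
  refine isCompact_univ.image ?_
  refine continuous_finsetSum _ fun i _ => ?_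
  exact (continuous_apply i).smul continuous_const

/-- The `ℤ_p`-rank of the closure of a group whose logarithms are independent. -/
theorem hasZpRank_of_indep (S : SimpleAV p n M R P) (L : AddSubgroup M) {m : ℕ} (y : Fin m → M)
    (hyL : ∀ i, y i ∈ L) (K : ℤ) (hK : K ≠ 0)
    (hmax : ∀ z ∈ L, ∃ b : Fin m → ℤ, K • z = ∑ i, b i • y i)
    (hind : ∀ a : Fin m → ℚ_[p], ∑ i, a i • S.lg (S.emb (y i)) = 0 → a = 0) :
    HasZpRank p (L.map S.emb).topologicalClosure m := by
  classical
  obtain ⟨P₀, hP₀, hfin, ⟨e⟩⟩ := S.open_subgroup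
  set H : AddSubgroup P := (L.map S.emb).topologicalClosure with hH
  have hHcl : IsClosed (H : Set P) := AddSubgroup.isClosed_topologicalClosure _
  set N : ℕ := P₀.index with hN
  have hN0 : N ≠ 0 := hfin.index_ne_zero
  have hNP : ∀ z : P, N • z ∈ P₀ := fun z => P₀.nsmul_index_mem z
  -- the map `z ↦ e (N z)`
  let F : P →+ (Fin n → ℤ_[p]) :=
    { toFun := fun z => e ⟨N • z, hNP z⟩
      map_zero' := by
        have : (⟨N • (0 : P), hNP 0⟩ : P₀) = 0 := Subtype.ext (by simp)
        rw [this, map_zero]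
      map_add' := fun a b => by
        rw [← map_add]
        congr 1
        exact Subtype.ext (by simp) }
  have hFdef : ∀ z, F z = e ⟨N • z, hNP z⟩ := fun _ => rfl
  have hFc : Continuous F := by
    have h1 : Continuous fun z : P => (⟨N • z, hNP z⟩ : P₀) :=
      Continuous.subtype_mk (continuous_nsmul N) _
    exact e.continuous.comp h1
  -- the logarithm in the chart
  let Λ : (Fin n → ℤ_[p]) →+ (Fin n → ℚ_[p]) :=
    (S.lg.comp P₀.subtype).comp e.symm.toAddMonoidHom
  have hΛdef : ∀ w, Λ w = S.lg (e.symm w : P₀) := fun _ => rfl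
  have hΛc : Continuous Λ :=
    S.lg_continuous.comp (continuous_subtype_val.comp e.symm.continuous)
  have hΛF : ∀ z, Λ (F z) = (N : ℚ_[p]) • S.lg z := by
    intro z
    rw [hΛdef, hFdef, ContinuousAddEquiv.symm_apply_apply]
    change S.lg (N • z) = _
    rw [map_nsmul, Nat.cast_smul_eq_nsmul]
  let v : Fin m → (Fin n → ℤ_[p]) := fun i => F (S.emb (y i))
  have hvind : LinearIndependent ℤ_[p] v := by
    rw [Fintype.linearIndependent_iff]
    intro a ha
    have h1 : ∑ i, ((a i : ℚ_[p]) * (N : ℚ_[p])) • S.lg (S.emb (y i)) = 0 := by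
      have h2 := congrArg Λ ha
      rw [map_sum, map_zero] at h2
      rw [← h2]
      refine Finset.sum_congr rfl fun i _ => ?_
      rw [map_padic_smul Λ hΛc, hΛF, smul_smul]
    intro i
    have h3 := congrFun (hind _ h1) i
    simp only [Pi.zero_apply] at h3
    rcases mul_eq_zero.mp h3 with h4 | h4
    · exact PadicInt.coe_eq_zero.mp h4
    · exact absurd h4 (by exact_mod_cast hN0)
  -- the submodule attached to the closure
  let H' : AddSubgroup (Fin n → ℤ_[p]) := H.comap (P₀.subtype.comp e.symm.toAddMonoidHom)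
  have hH'mem : ∀ w, w ∈ H' ↔ ((e.symm w : P₀) : P) ∈ H := fun _ => Iff.rfl
  have hH'cl : IsClosed (H' : Set (Fin n → ℤ_[p])) :=
    hHcl.preimage (continuous_subtype_val.comp e.symm.continuous)
  let W : Submodule ℤ_[p] (Fin n → ℤ_[p]) := closedSubmodule H' hH'cl
  have hWmem : ∀ w, w ∈ W ↔ ((e.symm w : P₀) : P) ∈ H := fun _ => Iff.rfl
  let V : Submodule ℤ_[p] (Fin n → ℤ_[p]) := Submodule.span ℤ_[p] (Set.range v)
  have hvW : ∀ i, v i ∈ W := by
    intro i
    rw [hWmem]
    change ((e.symm (e ⟨N • S.emb (y i), _⟩) : P₀) : P) ∈ H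
    rw [ContinuousAddEquiv.symm_apply_apply]
    exact H.nsmul_mem ((L.map S.emb).le_topologicalClosure ⟨y i, hyL i, rfl⟩) N
  -- a multiple of the closure lies in the span
  have hKF : ∀ z ∈ H, (K : ℤ_[p]) • F z ∈ V := by
    have hc1 : Continuous fun z : P => (K : ℤ_[p]) • F z :=
      (continuous_const_smul (K : ℤ_[p])).comp hFc
    have hcl : IsClosed {z : P | (K : ℤ_[p]) • F z ∈ V} := (isClosed_span v).preimage hc1
    have hsub : ((L.map S.emb : AddSubgroup P) : Set P) ⊆ {z : P | (K : ℤ_[p]) • F z ∈ V} := by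
      rintro _ ⟨z, hz, rfl⟩
      obtain ⟨b, hb⟩ := hmax z hz
      simp only [Set.mem_ofPred_eq]
      have h1 : (K : ℤ_[p]) • F (S.emb z) = ∑ i, ((b i : ℤ) : ℤ_[p]) • v i := by
        rw [Int.cast_smul_eq_zsmul, ← map_zsmul, ← map_zsmul, hb, map_sum, map_sum]
        refine Finset.sum_congr rfl fun i _ => ?_
        rw [map_zsmul, map_zsmul, Int.cast_smul_eq_zsmul]
      rw [h1]
      exact Submodule.sum_mem _ fun i _ => Submodule.smul_mem _ _ (Submodule.subset_span ⟨i, rfl⟩)
    intro z hz
    exact (closure_minimal hsub hcl) hz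
  have hKW : ∀ w ∈ W, ((K : ℤ_[p]) * (N : ℤ_[p])) • w ∈ V := by
    intro w hw
    have h1 := hKF _ ((hWmem w).mp hw)
    have h2 : F ((e.symm w : P₀) : P) = (N : ℤ_[p]) • w := by
      rw [hFdef]
      have h3 : (⟨N • ((e.symm w : P₀) : P), hNP _⟩ : P₀) = N • e.symm w := Subtype.ext (by simp)
      rw [h3, map_nsmul, ContinuousAddEquiv.apply_symm_apply, Nat.cast_smul_eq_nsmul]
    rwa [h2, smul_smul] at h1
  -- the rank
  have hKN : ((K : ℤ_[p]) * (N : ℤ_[p])) ≠ 0 :=
    mul_ne_zero (by exact_mod_cast hK) (by exact_mod_cast hN0)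
  have hrankV : Module.finrank ℤ_[p] V = m := by
    rw [finrank_span_eq_card hvind, Fintype.card_fin]
  have hVW : V ≤ W := Submodule.span_le.mpr (by rintro _ ⟨i, rfl⟩; exact hvW i)
  have hrank : Module.finrank ℤ_[p] W = m := by
    refine le_antisymm ?_ ?_
    · let f : W →ₗ[ℤ_[p]] V :=
        { toFun := fun w => ⟨((K : ℤ_[p]) * (N : ℤ_[p])) • (w : Fin n → ℤ_[p]), hKW w w.2⟩
          map_add' := fun a b => Subtype.ext (by simp [smul_add])
          map_smul' := fun c a => Subtype.ext (by
            simp only [Submodule.coe_smul, RingHom.id_apply]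
            rw [smul_comm]) }
      have hf : Function.Injective f := by
        intro a b hab
        have h1 := congrArg Subtype.val hab
        change ((K : ℤ_[p]) * (N : ℤ_[p])) • (a : Fin n → ℤ_[p]) =
          ((K : ℤ_[p]) * (N : ℤ_[p])) • (b : Fin n → ℤ_[p]) at h1
        exact Subtype.ext (smul_right_injective _ hKN h1)
      calc Module.finrank ℤ_[p] W ≤ Module.finrank ℤ_[p] V :=
            LinearMap.finrank_le_finrank_of_injective hf
        _ = m := hrankV
    · calc m = Module.finrank ℤ_[p] V := hrankV.symm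
        _ ≤ Module.finrank ℤ_[p] W := Submodule.finrank_mono hVW
  -- the basis and the isomorphism
  let b : Module.Basis (Fin m) ℤ_[p] W := Module.finBasisOfFinrankEq ℤ_[p] W hrank
  let U : AddSubgroup P := P₀ ⊓ H
  have hbW : ∀ c : Fin m → ℤ_[p], (∑ i, c i • ((b i : W) : Fin n → ℤ_[p])) ∈ W := fun c =>
    Submodule.sum_mem _ fun i _ => Submodule.smul_mem _ _ (b i).2
  let ψ : (Fin m → ℤ_[p]) →+ U :=
    { toFun := fun c => ⟨((e.symm (∑ i, c i • ((b i : W) : Fin n → ℤ_[p])) : P₀) : P),
        ⟨(e.symm _).2, (hWmem _).mp (hbW c)⟩⟩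
      map_zero' := Subtype.ext (by simp)
      map_add' := fun c d => Subtype.ext (by
        simp only [Pi.add_apply, add_smul, Finset.sum_add_distrib, map_add,
          AddSubgroup.coe_add]) }
  have hψc : Continuous ψ := by
    refine Continuous.subtype_mk ?_ _
    refine continuous_subtype_val.comp (e.symm.continuous.comp ?_)
    refine continuous_finsetSum _ fun i _ => ?_
    exact (continuous_apply i).smul continuous_const
  have hψi : Function.Injective ψ := by
    intro c d hcd
    have h1 : ((e.symm (∑ i, c i • ((b i : W) : Fin n → ℤ_[p])) : P₀) : P) =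
        ((e.symm (∑ i, d i • ((b i : W) : Fin n → ℤ_[p])) : P₀) : P) :=
      congrArg (fun u : U => (u : P)) hcd
    have h2 := e.symm.injective (Subtype.ext h1)
    have h3 : (∑ i, c i • b i : W) = ∑ i, d i • b i := Subtype.ext (by
      simpa only [Submodule.coe_sum, Submodule.coe_smul] using h2)
    have h4 := congrArg b.equivFun h3
    rw [← b.equivFun_symm_apply, ← b.equivFun_symm_apply, LinearEquiv.apply_symm_apply,
      LinearEquiv.apply_symm_apply] at h4
    exact h4
  have hψs : Function.Surjective ψ := by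
    rintro ⟨u, hu₀, huH⟩
    have h1 : e ⟨u, hu₀⟩ ∈ W := by
      rw [hWmem, ContinuousAddEquiv.symm_apply_apply]
      exact huH
    refine ⟨b.equivFun ⟨_, h1⟩, ?_⟩
    refine Subtype.ext ?_
    change ((e.symm (∑ i, (b.equivFun ⟨_, h1⟩) i • ((b i : W) : Fin n → ℤ_[p])) : P₀) : P) = u
    have h2 : (∑ i, (b.equivFun ⟨_, h1⟩) i • ((b i : W) : Fin n → ℤ_[p])) = e ⟨u, hu₀⟩ := by
      have h3 := congrArg Subtype.val (b.sum_equivFun ⟨_, h1⟩)
      simpa only [Submodule.coe_sum, Submodule.coe_smul] using h3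
    rw [h2, ContinuousAddEquiv.symm_apply_apply]
  let ε : (Fin m → ℤ_[p]) ≃+ U := AddEquiv.ofBijective ψ ⟨hψi, hψs⟩
  have hεc : Continuous ε := hψc
  let hom : (Fin m → ℤ_[p]) ≃ₜ U := Continuous.homeoOfEquivCompactToT2 (f := ε.toEquiv) hεc
  refine ⟨U, inf_le_right, ⟨(P₀ : Set P), hP₀, rfl⟩, ?_, ⟨?_⟩⟩
  · have h1 : U.relIndex H = P₀.relIndex H := by
      change (P₀ ⊓ H).relIndex H = _
      rw [AddSubgroup.inf_relIndex_right]
    rw [h1]
    intro h0
    have h2 := AddSubgroup.relIndex_dvd_index_of_normal P₀ H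
    rw [h0] at h2
    exact hN0 (Nat.eq_zero_of_zero_dvd h2)
  · exact
      { ε.symm with
        continuous_toFun := hom.symm.continuous
        continuous_invFun := hεc }

end Pool.Agent.X268.PC
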